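import Pool.Agent.Q256.GcdRec

set_option autoImplicit false

/-!
# Zero time of a gcd-subtraction recursion: the answer to the question is negative

If some prime divides all values `P(1), P(2), ...`, for instance `P = x² + x`, then the upper limit of
`f_P(N) / N` is at most `2 / 3`.

Proof. As long as no step is larger than `1` the number `M = a(n-1) + n` does not change, and
`gcd(a(n-1), P(n)) = gcd(a(n-1), P(M))`. Let `q` be the least prime factor of `P(M)`. If `q ≤ a(n-1)`,
then after at most `q` steps the value decreases by some `g ≥ q` at once. So in every such stage the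
value decreases by at least `3/2` times the number of the steps.
-/

namespace Pool.Agent.Results.MP_0950f1_nt.NegativeAnswer

open Polynomial Filter Pool.Agent.Q256.GcdRec

/-- `X² + X` is one of the polynomials considered. -/
theorem adm : Adm (X ^ 2 + X : ℤ[X]) := by
  constructor
  · intro n hn
    simp only [eval_add, eval_pow, eval_X]
    positivity
  · simp only [eval_add, eval_pow, eval_X]
    apply tendsto_atTop_mono (f := fun n : ℕ => (n : ℤ))
    · intro n
      have : (0 : ℤ) ≤ (n : ℤ) ^ 2 := by positivity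
      linarith
    · exact tendsto_natCast_atTop_atTop

/-- **Negative answer.** The polynomial `X² + X` satisfies the assumptions (it is even positive at all
`n ≥ 1`), and `f(N) ≤ (2/3) N + 2` for all `N`; so it is not true that the upper limit of
`f_P(N) / N` is `1` for all `P ∈ ℤ[x]` with `P(n) ≥ 0` for `n ≥ 1` and `P(n) → ∞`. More generally
`f_P(N) ≤ (2/3) N + (p + 3) / 3` for all `N`, and the upper limit is at most `2/3`, for every
polynomial `P` whose values `P(n)`, `n ≥ 1`, are all divisible by some prime `p`. -/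
theorem result :
    (∀ (P : ℤ[X]) (p : ℕ), p.Prime → (∀ n : ℕ, 1 ≤ n → (p : ℤ) ∣ P.eval (n : ℤ)) →
      (∀ N : ℕ, (f P N : ℝ) ≤ 2 / 3 * N + (p + 3) / 3) ∧
        limsup (fun N : ℕ => (f P N : ℝ) / N) atTop ≤ 2 / 3) ∧
    (Adm (X ^ 2 + X : ℤ[X]) ∧ (∀ n : ℤ, 1 ≤ n → 0 < (X ^ 2 + X : ℤ[X]).eval n) ∧
      ∀ N : ℕ, (f (X ^ 2 + X : ℤ[X]) N : ℝ) ≤ 2 / 3 * N + 2) ∧
    ¬ ∀ P : ℤ[X], Adm P → limsup (fun N : ℕ => (f P N : ℝ) / N) atTop = 1 := by
  have key : ∀ (P : ℤ[X]) (p : ℕ), p.Prime → (∀ n : ℕ, 1 ≤ n → (p : ℤ) ∣ P.eval (n : ℤ)) →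
      (∀ N : ℕ, (f P N : ℝ) ≤ 2 / 3 * N + (p + 3) / 3) ∧
        limsup (fun N : ℕ => (f P N : ℝ) / N) atTop ≤ 2 / 3 := by
    intro P p hp hdvd
    have h1 : ∀ N : ℕ, (f P N : ℝ) ≤ 2 / 3 * N + (p + 3) / 3 := by
      intro N
      have h := f_le_of_small_factors P N p (fun M hM _ => ⟨p, hp, le_rfl, hdvd M (by omega)⟩)
      have h2 : (3 : ℝ) * f P N ≤ 2 * N + p + 3 := by exact_mod_cast h
      linarith
    exact ⟨h1, limsup_le_of_eventually P (2 / 3) ((p + 3) / 3) (Eventually.of_forall h1)⟩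
  have hfix : ∀ n : ℕ, 1 ≤ n → ((2 : ℕ) : ℤ) ∣ (X ^ 2 + X : ℤ[X]).eval (n : ℤ) := by
    intro n _
    simp only [eval_add, eval_pow, eval_X]
    have := Int.even_mul_succ_self (n : ℤ)
    have e : (n : ℤ) ^ 2 + n = n * (n + 1) := by ring
    rw [e]
    exact this.two_dvd
  have h2 := key _ 2 Nat.prime_two hfix
  refine ⟨key, ⟨adm, ?_, ?_⟩, ?_⟩
  · intro n hn
    simp only [eval_add, eval_pow, eval_X]
    positivity
  · intro N
    have h3 := h2.1 N
    push_cast at h3
    linarith
  · intro hcon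
    have h3 := hcon _ adm
    rw [h3] at h2
    have := h2.2
    norm_num at this

end Pool.Agent.Results.MP_0950f1_nt.NegativeAnswer
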