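import Pool.Agent.Q256.GcdRec

set_option autoImplicit false

/-!
# Zero time of a gcd-subtraction recursion: when is the upper limit of `f_P(N) / N` equal to `1`?

The upper limit is `1` only if for every `ε > 0` there are infinitely many `M` such that `P(M)` has no
prime factor `≤ (1 - ε) M`. For products of linear polynomials this makes the question equivalent to
Dickson's conjecture for the linear factors.
-/

namespace Pool.Agent.Results.MP_0950f1_nt.PrimeCriterion

open Polynomial Filter Pool.Agent.Q256.GcdRec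

/-- The product of the linear polynomials `a i X + b i`. -/
noncomputable def prodLin {ι : Type} [Fintype ι] (α β : ι → ℤ) : ℤ[X] :=
  ∏ i, (C (α i) * X + C (β i))

theorem prodLin_eval {ι : Type} [Fintype ι] (α β : ι → ℤ) (x : ℤ) :
    (prodLin α β).eval x = ∏ i, (α i * x + β i) := by
  unfold prodLin
  rw [eval_prod]
  simp

/-- **Criterion.**
(1) If the upper limit of `f_P(N) / N` is `1`, then for every `ε > 0` there are infinitely many `M`
such that all prime factors of `P(M)` are larger than `(1 - ε) M`.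
(2) If there are infinitely many `M` such that all prime factors of `P(M)` are larger than `M - 2`,
then the upper limit is `1`.
(3) Let `P` be the product of the linear polynomials `a_i X + b_i` (`a_i ≥ 1`), and `P(n) ≠ 0` for all
integers `n ≥ 2`. Then the upper limit is `1` if and only if there are infinitely many `M` for which
all the numbers `a_i M + b_i` are prime. -/
theorem result :
    (∀ P : ℤ[X], limsup (fun N : ℕ => (f P N : ℝ) / N) atTop = 1 → ∀ ε : ℝ, 0 < ε →
      {M : ℕ | ∀ q : ℕ, q.Prime → (q : ℤ) ∣ P.eval (M : ℤ) → (1 - ε) * M < q}.Infinite) ∧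
    (∀ P : ℤ[X], {M : ℕ | ∀ q : ℕ, q.Prime → (q : ℤ) ∣ P.eval (M : ℤ) → M < q + 2}.Infinite →
      limsup (fun N : ℕ => (f P N : ℝ) / N) atTop = 1) ∧
    (∀ (ι : Type) [Fintype ι] (α β : ι → ℤ), (∀ i, 1 ≤ α i) →
      (∀ n : ℤ, 2 ≤ n → (prodLin α β).eval n ≠ 0) →
      (limsup (fun N : ℕ => (f (prodLin α β) N : ℝ) / N) atTop = 1 ↔
        {M : ℕ | ∀ i, ∃ p : ℕ, p.Prime ∧ α i * (M : ℤ) + β i = p}.Infinite)) := by
  refine ⟨fun P h ε hε => ?_, fun P h => ?_, fun ι _ α β hα hroot => ⟨fun h => ?_, fun h => ?_⟩⟩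
  · exact Nat.frequently_atTop_iff_infinite.1 (necessary P h ε hε)
  · exact sufficient P (Nat.frequently_atTop_iff_infinite.2 h)
  · -- all large `M` with prime factors `> M / 2` work
    have h1 := necessary _ h (1 / 2) (by norm_num)
    have hlarge : ∀ᶠ M : ℕ in atTop, ∀ i, 2 ≤ α i * (M : ℤ) + β i ∧
        α i * (M : ℤ) + β i < ((M : ℤ) * M) / 4 := by
      rw [eventually_all]
      intro i
      filter_upwards [eventually_ge_atTop (4 * (2 + (α i).natAbs + (β i).natAbs) + 8)] with M hM
      have hα1 := hα i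
      have hM' : (4 * (2 + (α i).natAbs + (β i).natAbs) + 8 : ℤ) ≤ M := by exact_mod_cast hM
      have ha : ((α i).natAbs : ℤ) = α i := Int.natAbs_of_nonneg (by omega)
      have hb : -((β i).natAbs : ℤ) ≤ β i ∧ β i ≤ (β i).natAbs := by omega
      constructor
      · nlinarith
      · have h4 : 4 * (α i * (M : ℤ) + β i + 1) ≤ (M : ℤ) * M := by
          have hb1 := hb.2
          have hb0 : (0 : ℤ) ≤ (β i).natAbs := by positivity
          rw [ha] at hM'
          have hM0 : (1 : ℤ) ≤ M := by omega
          have h5 := mul_le_mul_of_nonneg_right hM' (by omega : (0 : ℤ) ≤ M)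
          have h6 : ((β i).natAbs : ℤ) * 1 ≤ ((β i).natAbs : ℤ) * M :=
            mul_le_mul_of_nonneg_left hM0 hb0
          linarith
        omega
    refine Nat.frequently_atTop_iff_infinite.1 ?_
    refine (h1.and_eventually hlarge).mono ?_
    rintro M ⟨hM1, hM2⟩ i
    obtain ⟨h2, h3⟩ := hM2 i
    refine ⟨(α i * (M : ℤ) + β i).toNat, ?_, (Int.toNat_of_nonneg (by omega)).symm⟩
    obtain ⟨v, hv⟩ : ∃ v : ℕ, (v : ℤ) = α i * (M : ℤ) + β i :=
      ⟨_, Int.toNat_of_nonneg (by omega)⟩
    rw [← hv, Int.toNat_natCast]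
    rw [← hv] at h2 h3
    have hbig : ∀ q : ℕ, q.Prime → q ∣ v → M < 2 * q := by
      intro q hq hqv
      have hd : (q : ℤ) ∣ (prodLin α β).eval (M : ℤ) := by
        rw [prodLin_eval]
        have h5 : (q : ℤ) ∣ α i * (M : ℤ) + β i := by
          rw [← hv]
          exact_mod_cast hqv
        exact h5.trans (Finset.dvd_prod_of_mem (fun j => α j * (M : ℤ) + β j) (Finset.mem_univ i))
      have h6 := hM1 q hq hd
      have h7 : (M : ℝ) < 2 * q := by linarith
      exact_mod_cast h7
    by_contra hnp
    have hv2 : 2 ≤ v := by exact_mod_cast h2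
    obtain ⟨m, hm⟩ := Nat.minFac_dvd v
    have hp1 := Nat.minFac_prime (n := v) (by omega)
    have hm1 : m ≠ 1 := by
      rintro rfl
      rw [mul_one] at hm
      rw [hm] at hnp
      exact hnp hp1
    have hp2 := Nat.minFac_prime hm1
    have hm0 : 0 < m := by
      rcases Nat.eq_zero_or_pos m with h0 | h0
      · rw [h0, mul_zero] at hm
        omega
      · exact h0
    have h8 := hbig _ hp1 (Nat.minFac_dvd v)
    have h9 := hbig _ hp2 ((Nat.minFac_dvd m).trans ⟨v.minFac, by rw [mul_comm]; exact hm⟩)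
    have h10 : m.minFac ≤ m := Nat.minFac_le hm0
    have h11 : M * M ≤ 4 * v := by
      have h12 : M * M ≤ (2 * v.minFac) * (2 * m.minFac) := Nat.mul_le_mul h8.le h9.le
      have h13 : v.minFac * m.minFac ≤ v.minFac * m := Nat.mul_le_mul_left _ h10
      rw [← hm] at h13
      nlinarith
    have h14 : (M : ℤ) * M ≤ 4 * v := by exact_mod_cast h11
    omega
  · apply sufficient
    rw [Nat.frequently_atTop_iff_infinite]
    -- restrict to large `M`
    obtain ⟨K, hK⟩ : ∃ K : ℕ, ∀ i, (β i).natAbs ≤ K := by
      refine ⟨∑ i, (β i).natAbs, fun i => ?_⟩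
      exact Finset.single_le_sum (f := fun i => (β i).natAbs) (fun _ _ => Nat.zero_le _)
        (Finset.mem_univ i)
    refine ((h.sdiff (Set.finite_Iio (K + 3))).mono ?_)
    rintro M ⟨hM1, hM2⟩ q hq hd
    have hMK : K + 3 ≤ M := by
      by_contra hcon
      exact hM2 (Set.mem_Iio.2 (by omega))
    rw [prodLin_eval] at hd
    obtain ⟨i, -, hi⟩ := ((Nat.prime_iff_prime_int.1 hq).dvd_finsetProd_iff _).1 hd
    obtain ⟨p, hp, hpe⟩ := hM1 i
    rw [hpe] at hi
    have hqp : q = p := (Nat.prime_dvd_prime_iff_eq hq hp).1 (by exact_mod_cast hi)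
    rw [hqp]
    have hb := hK i
    have hα1 := hα i
    rcases hα1.lt_or_eq with h1 | h1
    · have : (M : ℤ) < p + 2 := by
        rw [← hpe]
        have : -(K : ℤ) ≤ β i := by omega
        have h5 : (K : ℤ) + 3 ≤ M := by exact_mod_cast hMK
        nlinarith
      exact_mod_cast this
    · -- slope one: the root `-b i` is at most `1`
      have hb1 : -1 ≤ β i := by
        by_contra hcon
        push Not at hcon
        apply hroot (-β i) (by omega)
        rw [prodLin_eval]
        apply Finset.prod_eq_zero (Finset.mem_univ i)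
        rw [← h1]
        ring
      have : (M : ℤ) < p + 2 := by
        rw [← hpe, ← h1]
        omega
      exact_mod_cast this

end Pool.Agent.Results.MP_0950f1_nt.PrimeCriterion
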